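import Pool.Agent.H77.GW.Whirly

/-!
# The generic bi-invariant metric group is whirly amenable, hence extremely amenable

`D` is the Polish space of all bi-invariant metrics with values in `[0, 1]` on the free group
`F∞ = FreeGroup ℕ`. We show that for comeagerly many `ρ ∈ D` the completion of `(F∞, ρ)` is
extremely amenable and, moreover, every invariant regular Borel probability measure on a compact
space is concentrated on the set of the common fixed points (whirly amenability); hence so is every
group `G` that is (isometrically isomorphic to) the completion of `(F∞, ρ)` for comeagerly many `ρ`.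

Idea: let `Γ` be a group with a bi-invariant metric `ρ`, `g_1, ..., g_m ∈ Γ` and `K` given. Take a
finite group `S` with marked elements `t_1, ..., t_m` whose Cayley graph has girth larger than `K`
and let `Γ` act on itself on the left. On the group of all maps `(S → Γ) → Γ` use the Ky Fan metric
of the submeasure `1/K` times the number of labelled edges `(s, i)` needed to cover a set by the
sets `{f : f (t_i s) ≠ g_i f s}`. Any `K` edges form a forest, so the whole space has submeasure
one and the diagonal copy of `Γ` is isometric, while the evaluations `h_s = (f ↦ f s)` satisfy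
`d (g_i h_s, h_{t_i s}) ≤ 1/K`. Averaging `N` copies and a second moment bound give families of
elements on which Lipschitz functions are almost constant and which are almost invariant; for the
invariant measures see `Pool/Agent/H77/GW/Whirly.lean`.
-/

namespace Pool.Agent.Results.MP_2bb948_al.GenericWhirlyAmenable

open Pool.Agent.H35.GEA Topology MeasureTheory

universe u v

/-- `ρ` is a bi-invariant metric on the free group `F∞ = FreeGroup ℕ` (its values lie in the unit
interval `[0, 1]`). -/
structure IsBiInvariantMetric (ρ : FreeGroup ℕ × FreeGroup ℕ → unitInterval) : Prop where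
  eq_zero_iff : ∀ x y, ρ (x, y) = 0 ↔ x = y
  symm : ∀ x y, ρ (x, y) = ρ (y, x)
  triangle : ∀ x y z, (ρ (x, z) : ℝ) ≤ (ρ (x, y) : ℝ) + (ρ (y, z) : ℝ)
  mul_left : ∀ a x y, ρ (a * x, a * y) = ρ (x, y)
  mul_right : ∀ a x y, ρ (x * a, y * a) = ρ (x, y)

/-- The space of all bi-invariant metrics on `F∞` with values in `[0, 1]`. -/
def D : Type := {ρ : FreeGroup ℕ × FreeGroup ℕ → unitInterval // IsBiInvariantMetric ρ}

/-- `D` carries the subspace topology of the product topology of `[0, 1] ^ (F∞ × F∞)`. -/
instance : TopologicalSpace D :=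
  inferInstanceAs (TopologicalSpace
    {ρ : FreeGroup ℕ × FreeGroup ℕ → unitInterval // IsBiInvariantMetric ρ})

/-- The metric group `G` is (isometrically isomorphic to) the metric completion of `(F∞, ρ)`:
it is complete and contains a dense isometric copy of `(F∞, ρ)` as a subgroup. -/
def IsCompletion (ρ : D) (G : Type u) [Group G] [MetricSpace G] : Prop :=
  CompleteSpace G ∧ ∃ ι : FreeGroup ℕ →* G, DenseRange ι ∧
    ∀ x y, dist (ι x) (ι y) = (ρ.1 (x, y) : ℝ)

/-- A topological group is extremely amenable if each of its continuous actions on a nonempty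
compact Hausdorff space has a fixed point. -/
def ExtremelyAmenable (H : Type u) [Group H] [TopologicalSpace H] : Prop :=
  ∀ (X : Type v) [TopologicalSpace X] [CompactSpace X] [T2Space X] [Nonempty X] [MulAction H X]
    [ContinuousSMul H X], ∃ x : X, ∀ g : H, g • x = x

/-- Every invariant regular Borel probability measure on a compact Hausdorff space with a continuous
action of `H` is concentrated on the set of the points which are fixed by all of `H`. -/
def MeasuresConcentratedOnFixedPoints (H : Type u) [Group H] [TopologicalSpace H] : Prop :=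
  ∀ (X : Type v) [TopologicalSpace X] [CompactSpace X] [T2Space X] [MulAction H X]
    [ContinuousSMul H X] [MeasurableSpace X] [BorelSpace X] (ν : Measure X)
    [IsProbabilityMeasure ν] [ν.Regular],
    (∀ g : H, ν.map (fun x => g • x) = ν) → ν {x | ∀ g : H, g • x = x} = 1

/-- The real valued function attached to a point of `D`. -/
def toReal (ρ : D) : FreeGroup ℕ → FreeGroup ℕ → ℝ := fun x y => (ρ.1 (x, y) : ℝ)

theorem toReal_isBiPseudo (ρ : D) : IsBiPseudo (toReal ρ) where
  nonneg x y := (ρ.1 (x, y)).2.1
  le_one x y := (ρ.1 (x, y)).2.2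
  self x := by
    have := (ρ.2.eq_zero_iff x x).2 rfl
    simp [toReal, this]
  symm x y := by simp only [toReal]; rw [ρ.2.symm]
  triangle x y z := ρ.2.triangle x y z
  biinv a x y b := by simp only [toReal]; rw [ρ.2.mul_right, ρ.2.mul_left]

theorem toReal_eq_zero (ρ : D) (x y : FreeGroup ℕ) (h : toReal ρ x y = 0) : x = y := by
  apply (ρ.2.eq_zero_iff x y).1
  exact Subtype.ext h

theorem exists_toReal (ρ : FreeGroup ℕ → FreeGroup ℕ → ℝ) (h : IsBiPseudo ρ)
    (h0 : ∀ x y, ρ x y = 0 → x = y) : ∃ σ : D, toReal σ = ρ := by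
  refine ⟨⟨fun p => ⟨ρ p.1 p.2, h.nonneg _ _, h.le_one _ _⟩, ?_⟩, rfl⟩
  refine ⟨?_, ?_, ?_, ?_, ?_⟩
  · intro x y
    constructor
    · intro hxy
      exact h0 x y (congrArg (fun z : unitInterval => (z : ℝ)) hxy)
    · rintro rfl
      exact Subtype.ext (h.self x)
  · intro x y
    exact Subtype.ext (h.symm x y)
  · intro x y z
    exact h.triangle x y z
  · intro a x y
    apply Subtype.ext
    have := h.biinv a x y 1
    simpa using this
  · intro a x y
    apply Subtype.ext
    have := h.biinv 1 x y a
    simpa using this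

theorem continuous_toReal (x y : FreeGroup ℕ) : Continuous (fun ρ : D => toReal ρ x y) := by
  have h1 : Continuous (fun ρ : D => ρ.1) := continuous_subtype_val
  have h2 : Continuous (fun ρ : D => ρ.1 (x, y)) := (continuous_apply (x, y)).comp h1
  exact continuous_subtype_val.comp h2

theorem isOpen_inv (m k : ℕ) : IsOpen {ρ : D | Inv m k (toReal ρ)} := by
  rw [isOpen_iff_forall_mem_open]
  rintro ρ ⟨S, i1, i2, i3, N, hN, σ, h, h1, h2⟩
  have hO1 : IsOpen {ρ' : D | ∀ (a : Fin m) (s : Fin N → S),
      toReal ρ' (FreeGroup.of (a : ℕ) * h s) (h (σ a s)) < 1 / ((k : ℝ) + 1)} := by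
    simp only [Set.ofPred_forall]
    exact isOpen_iInter_of_finite fun a => isOpen_iInter_of_finite fun s =>
      isOpen_lt (continuous_toReal _ _) continuous_const
  have hO2 : IsOpen {ρ' : D | ∀ (s : Fin N → S) (i : Fin N) (b : S),
      toReal ρ' (h (Function.update s i b)) (h s) < 2 / (N : ℝ)} := by
    simp only [Set.ofPred_forall]
    exact isOpen_iInter_of_finite fun s => isOpen_iInter_of_finite fun i =>
      isOpen_iInter_of_finite fun b => isOpen_lt (continuous_toReal _ _) continuous_const
  refine ⟨_, ?_, hO1.inter hO2, h1, h2⟩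
  rintro ρ' ⟨h1', h2'⟩
  exact ⟨S, i1, i2, i3, N, hN, σ, h, h1', h2'⟩

theorem dense_inv (m k : ℕ) : Dense {ρ : D | Inv m k (toReal ρ)} := by
  intro ρ₀
  have key : ∀ n : ℕ, ∃ ρ : D, Inv m k (toReal ρ) ∧
      ∀ x ∈ low n, ∀ y ∈ low n, toReal ρ x y = toReal ρ₀ x y := by
    intro n
    obtain ⟨ρ, h1, h2, h3, h4⟩ := exists_near (toReal ρ₀) (toReal_isBiPseudo ρ₀)
      (toReal_eq_zero ρ₀) m k (max m n) (le_max_left _ _)
    obtain ⟨σ, hσ⟩ := exists_toReal ρ h1 h2
    refine ⟨σ, by rw [hσ]; exact h4, ?_⟩
    intro x hx y hy
    rw [hσ]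
    exact h3 x (low_mono (le_max_right _ _) hx) y (low_mono (le_max_right _ _) hy)
  choose σ hσ1 hσ2 using key
  apply mem_closure_of_tendsto (f := σ) (b := Filter.atTop) _ (Filter.Eventually.of_forall hσ1)
  have hval : Filter.Tendsto (fun n => (σ n).1) Filter.atTop (𝓝 ρ₀.1) := by
    rw [tendsto_pi_nhds]
    rintro ⟨x, y⟩
    obtain ⟨n1, hn1⟩ := exists_low x
    obtain ⟨n2, hn2⟩ := exists_low y
    apply tendsto_const_nhds.congr'
    filter_upwards [Filter.eventually_ge_atTop (max n1 n2)] with n hn
    apply Subtype.ext
    exact (hσ2 n x (low_mono ((le_max_left _ _).trans hn) hn1) y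
      (low_mono ((le_max_right _ _).trans hn) hn2)).symm
  exact tendsto_subtype_rng.2 hval

theorem residual_inv : ∀ᶠ ρ in residual D, ∀ m k, Inv m k (toReal ρ) := by
  rw [eventually_countable_forall]
  intro m
  rw [eventually_countable_forall]
  intro k
  exact residual_of_dense_open (isOpen_inv m k) (dense_inv m k)

theorem extremelyAmenable_of_inv (ρ : D) (hρ : ∀ m k, Inv m k (toReal ρ)) (H : Type u) [Group H]
    [MetricSpace H] (hH : IsCompletion ρ H) : ExtremelyAmenable.{u, v} H := by
  intro X _ _ _ _ _ _
  obtain ⟨_, ι, hdense, hdist⟩ := hH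
  exact exists_fixed ι hdense (toReal ρ) (toReal_isBiPseudo ρ) hdist hρ X

theorem measuresConcentrated_of_inv (ρ : D) (hρ : ∀ m k, Inv m k (toReal ρ)) (H : Type u)
    [Group H] [MetricSpace H] (hH : IsCompletion ρ H) :
    MeasuresConcentratedOnFixedPoints.{u, v} H := by
  intro X _ _ _ _ _ _ _ ν _ _ hν
  obtain ⟨_, ι, hdense, hdist⟩ := hH
  exact Pool.Agent.H77.GW.measure_fixed ι (toReal ρ) ν hdense (toReal_isBiPseudo ρ) hdist hρ hν

theorem baire_D : BaireSpace D := by
  have hG : IsGδ {ρ : FreeGroup ℕ × FreeGroup ℕ → unitInterval | IsBiInvariantMetric ρ} := by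
    have hset : {ρ : FreeGroup ℕ × FreeGroup ℕ → unitInterval | IsBiInvariantMetric ρ}
        = ({ρ | ∀ x, ρ (x, x) = 0} ∩ {ρ | ∀ x y, ρ (x, y) = ρ (y, x)} ∩
          {ρ | ∀ x y z, (ρ (x, z) : ℝ) ≤ (ρ (x, y) : ℝ) + (ρ (y, z) : ℝ)} ∩
          {ρ | ∀ a x y, ρ (a * x, a * y) = ρ (x, y)} ∩
          {ρ | ∀ a x y, ρ (x * a, y * a) = ρ (x, y)}) ∩
          ⋂ p : {p : FreeGroup ℕ × FreeGroup ℕ // p.1 ≠ p.2}, {ρ | ρ (p.1.1, p.1.2) ≠ 0} := by
      ext ρ
      simp only [Set.mem_inter_iff, Set.mem_iInter, Set.mem_ofPred_eq]
      constructor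
      · intro h
        refine ⟨⟨⟨⟨⟨fun x => (h.eq_zero_iff x x).2 rfl, h.symm⟩, h.triangle⟩, h.mul_left⟩,
          h.mul_right⟩, fun p hp => p.2 ((h.eq_zero_iff _ _).1 hp)⟩
      · rintro ⟨⟨⟨⟨⟨h1, h2⟩, h3⟩, h4⟩, h5⟩, h6⟩
        refine ⟨fun x y => ⟨fun hxy => ?_, ?_⟩, h2, h3, h4, h5⟩
        · by_contra hne
          exact h6 ⟨(x, y), hne⟩ hxy
        · rintro rfl
          exact h1 x
    rw [hset]
    apply IsGδ.inter
    · apply IsClosed.isGδ
      apply IsClosed.inter
      apply IsClosed.inter
      apply IsClosed.inter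
      apply IsClosed.inter
      · simp only [Set.ofPred_forall]
        exact isClosed_iInter fun x => isClosed_eq (by fun_prop) continuous_const
      · simp only [Set.ofPred_forall]
        exact isClosed_iInter fun x => isClosed_iInter fun y =>
          isClosed_eq (by fun_prop) (by fun_prop)
      · simp only [Set.ofPred_forall]
        exact isClosed_iInter fun x => isClosed_iInter fun y => isClosed_iInter fun z =>
          isClosed_le (by fun_prop) (by fun_prop)
      · simp only [Set.ofPred_forall]
        exact isClosed_iInter fun x => isClosed_iInter fun y => isClosed_iInter fun z =>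
          isClosed_eq (by fun_prop) (by fun_prop)
      · simp only [Set.ofPred_forall]
        exact isClosed_iInter fun x => isClosed_iInter fun y => isClosed_iInter fun z =>
          isClosed_eq (by fun_prop) (by fun_prop)
    · apply IsGδ.iInter
      intro p
      apply IsOpen.isGδ
      exact isOpen_ne_fun (by fun_prop) continuous_const
  exact hG.baireSpace_of_t2Space_locallyCompactSpace

theorem nonempty_D : Nonempty D := by
  classical
  obtain ⟨σ, _⟩ := exists_toReal (fun x y => if x = y then 0 else 1)
    ⟨fun x y => by split_ifs <;> norm_num, fun x y => by split_ifs <;> norm_num,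
      fun x => by simp, fun x y => by simp only [eq_comm],
      fun x y z => by
        by_cases h1 : x = y
        · subst h1; simp
        · rw [if_neg h1]; split_ifs <;> norm_num,
      fun a x y b => by simp⟩
    (fun x y h => by
      by_contra hne
      simp [hne] at h)
  exact ⟨σ⟩

/-- **The generic bi-invariant metric group is extremely amenable and whirly amenable.** For
comeagerly many bi-invariant metrics `ρ` on `F∞` bounded by one, the completion of `(F∞, ρ)` is
extremely amenable, and the invariant regular Borel probability measures of its continuous actions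
on compact Hausdorff spaces are concentrated on the common fixed points; consequently every metric
group `G` that is the completion of `(F∞, ρ)` for comeagerly many `ρ` has both properties. -/
theorem result :
    (∀ᶠ ρ in residual D, ∀ (H : Type u) [Group H] [MetricSpace H],
      IsCompletion ρ H → ExtremelyAmenable.{u, v} H ∧ MeasuresConcentratedOnFixedPoints.{u, v} H) ∧
    ∀ (G : Type u) [Group G] [MetricSpace G],
      (∀ᶠ ρ in residual D, IsCompletion ρ G) →
        ExtremelyAmenable.{u, v} G ∧ MeasuresConcentratedOnFixedPoints.{u, v} G := by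
  constructor
  · filter_upwards [residual_inv] with ρ hρ
    intro H _ _ hH
    exact ⟨extremelyAmenable_of_inv ρ hρ H hH, measuresConcentrated_of_inv ρ hρ H hH⟩
  · intro G _ _ hG
    have := baire_D
    have := nonempty_D
    have h1 : {ρ : D | IsCompletion ρ G ∧ ∀ m k, Inv m k (toReal ρ)} ∈ residual D := by
      filter_upwards [hG, residual_inv] with ρ h1 h2
      exact ⟨h1, h2⟩
    obtain ⟨ρ, h2, h3⟩ := (dense_of_mem_residual h1).nonempty
    exact ⟨extremelyAmenable_of_inv ρ h3 G h2, measuresConcentrated_of_inv ρ h3 G h2⟩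

end Pool.Agent.Results.MP_2bb948_al.GenericWhirlyAmenable
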